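import Pool.Agent.Q321.RB.UndirFin

/-!
# The unweighted red-blue s-t cut problem in undirected graphs is NP-complete

The reduction is from CLIQUE. For every edge `uv` of the given graph `H` the new graph has the red
edge `uv` and two red paths of length two from `s` to `u` and from `s` to `v`; every vertex of `H` is
joined to `t` by a blue edge. For a vertex set `X` with `s ∈ X`, `t ∉ X` the gadget of an edge `uv`
contributes at least two red edges to the cut, unless `u` and `v` are both in `X`, and the number of
blue edges in the cut is the number of vertices of `H` in `X`. So with `m = |E(H)|` there is a cut
with at most `2 (m - k (k - 1) / 2)` red edges and at most `k` blue edges exactly if some at most `k`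
vertices of `H` span at least `k (k - 1) / 2` edges, i.e. form a clique.
-/

namespace Pool.Agent.Results.MP_ad21dd_lc.RedBlueNPComplete

open Pool.Agent.NPC Pool.Agent.Q321.RB

/-- **The unweighted red-blue `s`-`t` cut problem in undirected simple graphs is NP-complete**
(under polynomial-time many-one reductions). -/
theorem result : InNPP RedBlueCut ∧ NPHardP RedBlueCut :=
  ⟨inNPP_redBlueCut, hardI_redBlueCut.toNPHardP⟩

end Pool.Agent.Results.MP_ad21dd_lc.RedBlueNPComplete
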